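import Mathlib
import Pool.Agent.W_5dd92e_h6.Chain

/-!
# MP_5dd92e_co: interchangeable colours can be merged

A class of `m` interchangeable colours next to a dominating special colour can be replaced by one
merged colour (weights times `m`, bonus divided by `m`) without changing the limit of
`Z(G_n)^(1/v(G_n))` along any sequence of graphs whose girth tends to infinity.  So the limit exists, with its
value, for every target which becomes orderable or of rank at most 2 after finitely many mergings.
-/

set_option autoImplicit false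

open Filter Topology Pool.Agent.W_5dd92e_h6
open scoped Classical

universe u

namespace Pool.Agent.Results.MP_5dd92e_co.InterchangeableColours

theorem result (T T' : Tg) (h : Relation.ReflTransGen Step T T') :
    (∀ (V : ℕ → Type u) [∀ n, Fintype (V n)] [∀ n, Nonempty (V n)] (G : ∀ n, SimpleGraph (V n)),
      Tendsto (fun n => (G n).egirth) atTop (𝓝 ⊤) → ∀ L : ℝ,
        (Tendsto (fun n => T.Z (G n) ^ (1 / (Fintype.card (V n) : ℝ))) atTop (𝓝 L) ↔
          Tendsto (fun n => T'.Z (G n) ^ (1 / (Fintype.card (V n) : ℝ))) atTop (𝓝 L))) ∧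
    ((∀ s, 0 ≤ T'.ω s) → (∀ s t, 0 ≤ T'.A s t) → (T'.A.rank ≤ 2 ∨ TPB.Orderable T'.A) →
      ∀ d : ℕ, 1 ≤ d → ∀ (V : ℕ → Type u) [∀ n, Fintype (V n)] [∀ n, Nonempty (V n)]
        (G : ∀ n, SimpleGraph (V n)), (∀ n, (G n).IsRegularOfDegree d) →
        (∀ n, (G n).IsBipartite) → Tendsto (fun n => (G n).egirth) atTop (𝓝 ⊤) →
        Tendsto (fun n => T.Z (G n) ^ (1 / (Fintype.card (V n) : ℝ))) atTop
          (𝓝 (Nrm d T'.ω T'.A ^ ((d : ℝ) / 2)))) :=
  ⟨fun V _ _ G hg L => chain_lim h V G hg L,
    fun hω h0 hb d hd V _ _ G hreg hbip hg => chain_base h hω h0 hb d hd V G hreg hbip hg⟩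

end Pool.Agent.Results.MP_5dd92e_co.InterchangeableColours
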