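import Mathlib
import Pool.Agent.W_5dd92e_ld.AllA

/-!
# MP_5dd92e_co: the limit exists for every target if the degree is large

For every `q` and every nonnegative symmetric `q x q` matrix `A` there is a `d0` such that for every
`d ≥ d0` there is a number `Lim` with the following property: for every sequence of nonempty finite
`d`-regular bipartite graphs `G n` whose girth tends to infinity, `Z(G n, A)^(1/v(G n))` converges to `Lim`.
In particular the limit is the same for all such sequences.
-/

set_option autoImplicit false

open Filter Topology TPB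
open scoped Classical

universe u

namespace Pool.Agent.Results.MP_5dd92e_co.LargeDegree

theorem result (q : ℕ) (A : Matrix (Fin q) (Fin q) ℝ) (hA : A.IsSymm) (h0 : ∀ i j, 0 ≤ A i j) :
    ∃ d0 : ℕ, ∀ d : ℕ, d0 ≤ d → ∃ Lim : ℝ,
      ∀ (V : ℕ → Type u) [∀ n, Fintype (V n)] [∀ n, Nonempty (V n)]
        (G : ∀ n, SimpleGraph (V n)), (∀ n, (G n).IsRegularOfDegree d) →
        (∀ n, (G n).IsBipartite) → Tendsto (fun n => (G n).egirth) atTop (𝓝 ⊤) →
        Tendsto (fun n => Zpart (G n) A hA ^ (1 / (Fintype.card (V n) : ℝ))) atTop (𝓝 Lim) :=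
  LD.fin_thm LD.allMain q A hA h0

end Pool.Agent.Results.MP_5dd92e_co.LargeDegree
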