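import Mathlib
import Pool.Agent.W_5dd92e_h55.Final

/-!
# MP_5dd92e_co: targets whose 2 x 2 minors can be made nonnegative

For every nonnegative symmetric matrix `A` (any size `q`, any degree `d`) which has rank at most 2, or whose
rows and columns can be ordered (independently) such that all 2 x 2 minors are nonnegative, the limit of
`Z(G_n, A)^(1/v(G_n))` exists along every sequence of `d`-regular bipartite graphs whose girth tends to
infinity, and it equals `N^(d/2)`, where `N` is the supremum of `∑ A i j (p i p' j)^((d-1)/d)` over probability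
vectors `p, p'`.
-/

set_option autoImplicit false

open Filter Topology TPB
open scoped Classical

universe u

namespace Pool.Agent.Results.MP_5dd92e_co.OrderableTargets

theorem result (d q : ℕ) (hd : 1 ≤ d) (A : Matrix (Fin q) (Fin q) ℝ) (hA : A.IsSymm)
    (h0 : ∀ i j, 0 ≤ A i j) (hTP : A.rank ≤ 2 ∨ Orderable A)
    (V : ℕ → Type u) [∀ n, Fintype (V n)] [∀ n, Nonempty (V n)] (G : ∀ n, SimpleGraph (V n))
    (hreg : ∀ n, (G n).IsRegularOfDegree d) (hbip : ∀ n, (G n).IsBipartite)
    (hgirth : Tendsto (fun n => (G n).egirth) atTop (𝓝 ⊤)) :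
    Tendsto (fun n => Zpart (G n) A hA ^ (1 / (Fintype.card (V n) : ℝ))) atTop
      (𝓝 (NN d A ^ ((d : ℝ) / 2))) :=
  limit_thm d hd A hA h0 (hTP.elim (rank_two A h0) id) V G hreg hbip hgirth

end Pool.Agent.Results.MP_5dd92e_co.OrderableTargets
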