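import Mathlib
import Pool.Agent.W_5dd92e_pf.Fin2

/-!
# MP_5dd92e_co: ferromagnetic Potts targets with arbitrary external fields

`A = x xᵀ + diag y` up to the order of rows and columns, `x > 0`, `y ≥ 0`, with one dominating colour `o`:
every colour `k` has `y k = 0` or (`x k ≤ x o` and `y k / x k ^ 2 ≤ y o / x o ^ 2`).  Then for every `d ≥ 1` the limit
of `Z(G_n, A)^(1/v(G_n))` exists along every sequence of `d`-regular bipartite graphs whose girth tends to infinity,
and it equals `N^(d/2)`, `N` the supremum of `∑ A i j (p i p' j)^((d-1)/d)` over probability vectors `p, p'`.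
-/

set_option autoImplicit false

open Filter Topology TPB
open scoped Classical

universe u

namespace Pool.Agent.Results.MP_5dd92e_co.PottsFields

theorem result (d q : ℕ) (hd : 1 ≤ d) (A : Matrix (Fin q) (Fin q) ℝ) (hA : A.IsSymm)
    (x y : Fin q → ℝ) (hx : ∀ k, 0 < x k) (hy : ∀ k, 0 ≤ y k) (o : Fin q)
    (hdom : ∀ k, y k = 0 ∨ (x k ≤ x o ∧ y k * x o ^ 2 ≤ y o * x k ^ 2))
    (ρ κ : Equiv.Perm (Fin q))
    (hAxy : ∀ k l, A (ρ k) (κ l) = x k * x l + if k = l then y k else 0)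
    (V : ℕ → Type u) [∀ n, Fintype (V n)] [∀ n, Nonempty (V n)] (G : ∀ n, SimpleGraph (V n))
    (hreg : ∀ n, (G n).IsRegularOfDegree d) (hbip : ∀ n, (G n).IsBipartite)
    (hgirth : Tendsto (fun n => (G n).egirth) atTop (𝓝 ⊤)) :
    Tendsto (fun n => Zpart (G n) A hA ^ (1 / (Fintype.card (V n) : ℝ))) atTop
      (𝓝 (NN d A ^ ((d : ℝ) / 2))) :=
  PF.limit_potts2 d hd A hA x y hx hy o hdom ρ κ hAxy V G hreg hbip hgirth

end Pool.Agent.Results.MP_5dd92e_co.PottsFields
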